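import Mathlib

/-!
# Sections of fundamental groups of ramified quadratic twists: definitions and statements of the parts

(helper623; Mathlib only.)  Every part is a `def ... : Prop`; the proof of part `PartX` is a theorem
`partX : PartX` in a file of its own.
-/

open Polynomial

namespace Pool.Agent.W623.SecC

universe u v w

/-- units of a valuation ring of a field -/
def IsU {K : Type*} [Field K] (V : ValuationSubring K) (x : K) : Prop := x ≠ 0 ∧ x ∈ V ∧ x⁻¹ ∈ V

/-- the curve `Y² = (X - e₀)(X - e₁)(X - e₂)` -/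
def crv {R : Type*} [CommRing R] (e : Fin 3 → R) : WeierstrassCurve R where
  a₁ := 0
  a₂ := -(e 0 + e 1 + e 2)
  a₃ := 0
  a₄ := e 0 * e 1 + e 0 * e 2 + e 1 * e 2
  a₆ := -(e 0 * e 1 * e 2)

section points

variable {K : Type u} [Field K]

open Classical in
/-- the ideal of a point of an affine Weierstrass curve: `1` for the point at infinity,
`(X - x, Y - y)` for the point `(x, y)` -/
noncomputable def idl {W : WeierstrassCurve.Affine K} : W.Point → Ideal W.CoordinateRing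
  | .zero => ⊤
  | .some x y _ => WeierstrassCurve.Affine.CoordinateRing.XYIdeal W x (C y)

/-- `e` is a triple of elements of `V` which are distinct modulo the maximal ideal -/
def Good (V : ValuationSubring K) (e : Fin 3 → K) : Prop :=
  (∀ i, e i ∈ V) ∧ ∀ i j, i ≠ j → IsU V (e i - e j)

open Classical in
/-- **Part A1**: the coordinates of the points of order a power of 2 are integral, and the point has
order 2 or all `x - e i` are units. -/
def PartA1 : Prop :=
  ∀ (K : Type u) [Field K] [CharZero K] (V : ValuationSubring K), (2 : K)⁻¹ ∈ V →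
    ∀ e : Fin 3 → K, Good V e → ∀ W : WeierstrassCurve.Affine K, W = crv e →
      ∀ (n : ℕ) (x y : K) (h : W.Nonsingular x y),
        2 ^ n • (WeierstrassCurve.Affine.Point.some x y h : W.Point) = 0 →
          x ∈ V ∧ y ∈ V ∧ (y = 0 ∨ ∀ i, IsU V (x - e i))

open Classical in
/-- **Part A2**: points of order a power of 2 can be halved if all units are squares. -/
def PartA2 : Prop :=
  ∀ (K : Type u) [Field K] [CharZero K] (V : ValuationSubring K), (2 : K)⁻¹ ∈ V →
    (∀ η, IsU V η → ∃ ρ, ρ ^ 2 = η) →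
    ∀ e : Fin 3 → K, Good V e → ∀ W : WeierstrassCurve.Affine K, W = crv e →
      ∀ (n : ℕ) (P : W.Point), 2 ^ n • P = 0 → ∃ Q : W.Point, 2 • Q = P

open Classical in
/-- **Part A3**: there are finitely many points of order dividing `2 ^ n`. -/
def PartA3 : Prop :=
  ∀ (K : Type u) [Field K] [CharZero K],
    ∀ (e : Fin 3 → K) (W : WeierstrassCurve.Affine K), W = crv e →
      ∀ n : ℕ, {P : W.Point | 2 ^ n • P = 0}.Finite

open Classical in
/-- **Part A4**: points of order a power of 2 with coordinates fixed by a lift of the `Q`-Frobenius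
are at most `Q ^ 2 + 1` in number. -/
def PartA4 : Prop :=
  ∀ (K : Type u) [Field K] [CharZero K] (V : ValuationSubring K), (2 : K)⁻¹ ∈ V →
    ∀ e : Fin 3 → K, Good V e → ∀ W : WeierstrassCurve.Affine K, W = crv e →
      ∀ (φ : K → K) (Q : ℕ), 2 ≤ Q → (∀ x ∈ V, φ x - x ^ Q ∈ V.nonunits) →
        ∀ n : ℕ, {P : W.Point | 2 ^ n • P = 0 ∧ ∀ (x y : K) (h : W.Nonsingular x y),
          P = WeierstrassCurve.Affine.Point.some x y h → φ x = x ∧ φ y = y}.ncard ≤ Q ^ 2 + 1

open Classical in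
/-- **Part A5**: the ideals of a point killed by `N` and of a sum of two points. -/
def PartA5 : Prop :=
  ∀ (K : Type u) [Field K] (W : WeierstrassCurve.Affine K),
    (∀ (N : ℕ) (P : W.Point), N • P = 0 →
      ∃ f : W.CoordinateRing, f ≠ 0 ∧ idl P ^ N = Ideal.span {f}) ∧
    (∀ P Q : W.Point, ∃ a b : W.CoordinateRing, a ≠ 0 ∧ b ≠ 0 ∧
      Ideal.span {a} * (idl P * idl Q) = Ideal.span {b} * idl (P + Q)) ∧
    (∀ (k : ℕ) (P : W.Point), ∃ a b : W.CoordinateRing, a ≠ 0 ∧ b ≠ 0 ∧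
      Ideal.span {a} * idl P ^ k = Ideal.span {b} * idl (k • P)) ∧
    (∀ a b : W.CoordinateRing, b ≠ 0 → Ideal.span {a} = Ideal.span {b} →
      ∃ c : K, c ≠ 0 ∧ a = algebraMap K W.CoordinateRing c * b)

open Classical in
/-- **Part A6**: the norm of a generator of the `N`-th power of the ideal of a point. -/
def PartA6 : Prop :=
  ∀ (K : Type u) [Field K] (e : Fin 3 → K) (W : WeierstrassCurve.Affine K), W = crv e →
      ∀ (N : ℕ) (x y : K), W.Nonsingular x y → ∀ f : W.CoordinateRing,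
        WeierstrassCurve.Affine.CoordinateRing.XYIdeal W x (C y) ^ N = Ideal.span {f} →
          ∃ c u : K, u ≠ 0 ∧ (c = u ^ 2 ∨ c = - u ^ 2) ∧
            Algebra.norm K[X] f = C c * (X - C x) ^ N

end points

section functions

/-- the value of an element of the coordinate ring at the point `(z, w)` of a field `R` over `K` -/
noncomputable def ev {K : Type u} {R : Type v} [Field K] [Field R] (W : WeierstrassCurve.Affine K)
    (ι : K →+* R) (z w : R) (h : W.polynomial.eval₂ (eval₂RingHom ι z) w = 0) :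
    W.CoordinateRing →+* R :=
  AdjoinRoot.lift (eval₂RingHom ι z) w h

/-- **Part A7**: a generator of the `N`-th power of the ideal of a point is an `N`-th power up to a
unit at every place of a function field. -/
def PartA7 : Prop :=
  ∀ (K : Type u) (Ω : Type v) [Field K] [Field Ω] (ι : K →+* Ω) (O : ValuationSubring Ω),
    (∀ c : K, ι c ∈ O) → ∀ (e : Fin 3 → K) (W : WeierstrassCurve.Affine K), W = crv e →
      ∀ (z w : Ω) (hzw : W.polynomial.eval₂ (eval₂RingHom ι z) w = 0),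
        (∀ P : K[X], P ≠ 0 → P.eval₂ ι z ≠ 0) →
        ∀ (N : ℕ) (x y : K), W.Nonsingular x y → ∀ f : W.CoordinateRing,
          WeierstrassCurve.Affine.CoordinateRing.XYIdeal W x (C y) ^ N = Ideal.span {f} →
            ∃ t : Ω, (t = z - ι x ∨ t = w - ι y ∨ t = w / z) ∧ t ≠ 0 ∧
              ev W ι z w hzw f / t ^ N ∈ O ∧ t ^ N / ev W ι z w hzw f ∈ O

/-- **Part A8**: the abstract theorem on elliptic curves. -/
def PartA8 : Prop :=
  ∀ (K₀ K : Type u) (R : Type v) [Field K₀] [Field K] [CharZero K] [Field R] [Algebra K₀ K]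
    (V : ValuationSubring K), (2 : K)⁻¹ ∈ V → (∀ η, IsU V η → ∃ ρ, ρ ^ 2 = η) →
    ∀ ϖ : K₀, ϖ ≠ 0 → algebraMap K₀ K ϖ ∈ V.nonunits →
    (∀ c : K, c ≠ 0 → ∃ j : ℤ, IsU V (c / algebraMap K₀ K ϖ ^ j)) →
    ∀ (φ : K ≃ₐ[K₀] K) (Q : ℕ), 2 ≤ Q → (∀ x, φ x ∈ V ↔ x ∈ V) →
    (∀ x ∈ V, φ x - x ^ Q ∈ V.nonunits) →
    ∀ e : Fin 3 → K₀, Good V (fun i => algebraMap K₀ K (e i)) →
    ∀ (ι : K →+* R) (Φ : R ≃+* R), (∀ c, Φ (ι c) = ι (φ c)) → ∀ z w : R, Φ z = z → Φ w = w →
    w ^ 2 = ∏ i, (z - ι (algebraMap K₀ K (e i))) →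
    (∀ P : K[X], P ≠ 0 → P.eval₂ ι z ≠ 0) →
    -- Kummer theory
    (∀ (n : ℕ) (W : WeierstrassCurve.Affine K), W = crv (fun i => algebraMap K₀ K (e i)) →
      ∀ (hzw : W.polynomial.eval₂ (eval₂RingHom ι z) w = 0) (x y : K), W.Nonsingular x y →
        ∀ f : W.CoordinateRing,
          WeierstrassCurve.Affine.CoordinateRing.XYIdeal W x (C y) ^ (2 ^ n) = Ideal.span {f} →
            ∃ (j : ℤ) (β : R), ev W ι z w hzw f = ι (algebraMap K₀ K ϖ) ^ j * β ^ (2 ^ n)) →
    (∀ (n : ℕ) (j : ℤ) (β : R), ι (algebraMap K₀ K ϖ) ^ j = β ^ (2 ^ n) → (2 ^ n : ℤ) ∣ j) →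
    ∀ (i : Fin 3) (j : ℤ) (β : R),
      z - ι (algebraMap K₀ K (e i)) = ι (algebraMap K₀ K ϖ) ^ j * β ^ 2 → Even j

end functions

section valuations

/-- **Part B1**: a valuation ring of the algebraic closure above a discrete valuation ring with
finite residue field, and a Frobenius element that stabilises it. -/
def PartB1 : Prop :=
  ∀ (A k : Type u) (kb : Type w) [CommRing A] [IsDomain A] [IsDiscreteValuationRing A] [Field k]
    [Field kb] [Algebra A k] [Algebra k kb] [Algebra A kb] [IsScalarTower A k kb]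
    [IsFractionRing A k] [CharZero k] [IsAlgClosure k kb] [Finite (IsLocalRing.ResidueField A)],
    ∃ (V : ValuationSubring kb) (φ : kb ≃ₐ[k] kb),
      (∀ a : A, algebraMap A kb a ∈ V) ∧
      (∀ a ∈ IsLocalRing.maximalIdeal A, algebraMap A kb a ∈ V.nonunits) ∧
      (∀ x, φ x ∈ V ↔ x ∈ V) ∧
      (∀ x ∈ V, φ x - x ^ Nat.card (IsLocalRing.ResidueField A) ∈ V.nonunits)

/-- **Part B2**: the splitting field of a polynomial with separable reduction is unramified. -/
def PartB2 : Prop :=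
  ∀ (A k : Type u) (kb : Type w) [CommRing A] [IsDomain A] [IsDiscreteValuationRing A] [Field k]
    [Field kb] [Algebra A k] [Algebra k kb] [Algebra A kb] [IsScalarTower A k kb]
    [IsFractionRing A k] [CharZero k] [IsAlgClosure k kb] [Finite (IsLocalRing.ResidueField A)]
    (V : ValuationSubring kb), (∀ a : A, algebraMap A kb a ∈ V) →
    (∀ a ∈ IsLocalRing.maximalIdeal A, algebraMap A kb a ∈ V.nonunits) →
    ∀ ϖ : A, Irreducible ϖ → ∀ f : A[X], IsUnit f.leadingCoeff →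
      (f.map (IsLocalRing.residue A)).Separable →
      ∀ c ∈ IntermediateField.adjoin k {θ : kb | aeval θ f = 0}, c ≠ 0 →
        ∃ j : ℤ, IsU V (c / algebraMap A kb ϖ ^ j)

/-- **Part B3**: adjoining square roots of units. -/
def PartB3 : Prop :=
  ∀ (k : Type u) (kb : Type w) [Field k] [CharZero k] [Field kb] [Algebra k kb] (V : ValuationSubring kb),
    (2 : kb)⁻¹ ∈ V → ∀ ϖ : k, ϖ ≠ 0 → algebraMap k kb ϖ ∈ V.nonunits →
    ∀ (L : IntermediateField k kb),
      (∀ c ∈ L, c ≠ 0 → ∃ j : ℤ, IsU V (c / algebraMap k kb ϖ ^ j)) →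
    ∀ (φ : kb ≃ₐ[k] kb), (∀ x, φ x ∈ V ↔ x ∈ V) → (∀ x, φ x ∈ L ↔ x ∈ L) →
    ∃ S : IntermediateField k kb, L ≤ S ∧ (∀ x, φ x ∈ S ↔ x ∈ S) ∧
      (∀ η ∈ S, IsU V η → ∀ ρ : kb, ρ ^ 2 = η → ρ ∈ S) ∧
      (∀ c ∈ S, c ≠ 0 → ∃ j : ℤ, IsU V (c / algebraMap k kb ϖ ^ j))

end valuations

section density

open NumberField IsDedekindDomain

/-- **Part D1** (Chebotarev): if some automorphism fixes no root of `g`, then there are many primes
modulo which `g` is separable without a root. -/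
def PartD1 : Prop :=
  ∀ (K : Type u) [Field K] [NumberField K] (g : (𝓞 K)[X]) (c : 𝓞 K), c ≠ 0 →
    (g.map (algebraMap (𝓞 K) K)).Separable →
    (∃ σ : AlgebraicClosure K ≃ₐ[K] AlgebraicClosure K,
      ∀ θ : AlgebraicClosure K, aeval θ (g.map (algebraMap (𝓞 K) K)) = 0 → σ θ ≠ θ) →
    ∀ ε : ℝ, 0 < ε → ∃ T : Finset (HeightOneSpectrum (𝓞 K)),
      (∀ v ∈ T, c ∉ v.asIdeal ∧ (2 : 𝓞 K) ∉ v.asIdeal ∧ g.leadingCoeff ∉ v.asIdeal ∧
        (g.map (Ideal.Quotient.mk v.asIdeal)).Separable ∧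
        ∀ a : 𝓞 K ⧸ v.asIdeal, (g.map (Ideal.Quotient.mk v.asIdeal)).eval a ≠ 0) ∧
      ∏ v ∈ T, (1 - (1 / (Ideal.absNorm v.asIdeal : ℝ) - 1 / (Ideal.absNorm v.asIdeal : ℝ) ^ 2)) < ε

/-- **Part D2** (Chinese remainder theorem): the classes of the elements that do not have valuation
exactly one at any of the primes in `T`. -/
def PartD2 : Prop :=
  ∀ (K : Type u) [Field K] [NumberField K] (T : Finset (HeightOneSpectrum (𝓞 K)))
    (E : Set (𝓞 K)), (∀ a ∈ E, ∀ v ∈ T, a ∈ v.asIdeal → a ∈ v.asIdeal ^ 2) →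
    (Set.ncard ((Ideal.Quotient.mk (∏ v ∈ T, v.asIdeal ^ 2)) '' E) : ℝ) ≤
      (∏ v ∈ T, (1 - (1 / (Ideal.absNorm v.asIdeal : ℝ) - 1 / (Ideal.absNorm v.asIdeal : ℝ) ^ 2))) *
        Nat.card (𝓞 K ⧸ ∏ v ∈ T, v.asIdeal ^ 2)

/-- **Part D3** (Jordan): a derangement of the roots of an irreducible polynomial. -/
def PartD3 : Prop :=
  ∀ (K : Type u) [Field K] [CharZero K] (f : K[X]), Irreducible f → 2 ≤ f.natDegree →
    ∃ σ : AlgebraicClosure K ≃ₐ[K] AlgebraicClosure K,
      ∀ θ : AlgebraicClosure K, aeval θ f = 0 → σ θ ≠ θ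

end density

end Pool.Agent.W623.SecC
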